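import Pool.Agent.H68.OP.Four

set_option autoImplicit false

/-!
# Two consecutive values of `Ω` at all pairwise sums of the elements of arbitrary sets

At almost all scales `N` the values of `Ω` at `x_i + x_j` and at `x_i + x_j + 1`, for all pairs `i < j`
simultaneously, are asymptotically independent, where `x_1, ..., x_k` run over arbitrary sets of integers, uniformly in
the sets.
-/

namespace Pool.Agent.Results.MP_e0aac0_nt.ConsecutiveValuesAtSums

open Finset Pool.Agent.H68.OP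
open ArithmeticFunction (cardFactors)

open Classical in
/-- `E` has logarithmic density zero -/
def LogDensityZero (E : Set ℕ) : Prop := Filter.Tendsto
  (fun X : ℕ => (∑ n ∈ Icc 1 X, if n ∈ E then (1 : ℝ) / n else 0) / Real.log X) Filter.atTop (nhds 0)

/-- the mean of `f(Ω(n))` over `n ≤ N` -/
noncomputable def mean (f : ℕ → ℂ) (N : ℕ) : ℂ := (∑ n ∈ Icc 1 N, f (cardFactors n)) / N

/-- The scale `N` is good for the functions `f r, g r` and the shifts `p r`, `q r`, up to `ε`: for ALL forms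
`y r = a x_(u r) + b x_(v r) + c`, where `1 ≤ a, b ≤ A` and `c ≤ A N` is any function of the other variables, such that
for `r < r'` the form `y r'` does not depend on both of `x_(u r)`, `x_(v r)`, and for ALL weights `w` which are, for
every `r`, a product of two functions bounded by one, one of which does not depend on `x_(u r)` and the other one not on
`x_(v r)` (for instance products of functions of one variable), the sum over `x` in `[N]^k` of
`w ∏_r f_r(Ω(y_r + p_r)) g_r(Ω(y_r + q_r))` is `∏_r mean(f_r) mean(g_r)` times the sum of `w`, up to `ε N^k`. -/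
def Good (k m A : ℕ) (p q : Fin m → ℕ) (f g : Fin m → ℕ → ℂ) (ε : ℝ) (N : ℕ) : Prop :=
  ∀ (y : Fin m → (Fin k → ℕ) → ℕ) (u v : Fin m → Fin k), (∀ r, IsForm A N (y r) (u r) (v r)) →
    (∀ r r', r < r' → Blind (y r') (u r) ∨ Blind (y r') (v r)) →
    ∀ w : (Fin k → ℕ) → ℂ, (∀ r, Split w (u r) (v r)) →
    ‖∑ x ∈ Fintype.piFinset (fun _ : Fin k => Icc 1 N),
          w x * ∏ r, (f r (cardFactors (y r x + p r)) * g r (cardFactors (y r x + q r))) -
        (∏ r, (mean (f r) N * mean (g r) N)) * ∑ x ∈ Fintype.piFinset (fun _ : Fin k => Icc 1 N), w x‖ ≤ ε * (N : ℝ) ^ k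

lemma form_mono {k A N : ℕ} {y : (Fin k → ℕ) → ℕ} {u v : Fin k} (h : IsForm A N y u v) : IsForm (A + 1) N y u v := by
  obtain ⟨huv, a, b, c, ha, haA, hb, hbA, hc, hcu, hcv, hy⟩ := h
  refine ⟨huv, a, b, c, ha, by omega, hb, by omega, fun x => (hc x).trans ?_, hcu, hcv, hy⟩
  exact Nat.mul_le_mul_right _ (by omega)

open Classical in
theorem uniform (k m A : ℕ) (p q : Fin m → ℕ) (hpq : ∀ r, p r ≠ q r) (ε δ : ℝ) (hε : 0 < ε) (hδ : 0 < δ) :
    ∃ X₀ : ℕ, ∀ X : ℕ, X₀ ≤ X → ∀ f g : Fin m → ℕ → ℂ, (∀ r l, ‖f r l‖ ≤ 1) → (∀ r l, ‖g r l‖ ≤ 1) →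
      ∑ N ∈ Icc 1 X, (if ¬ Good k m A p q f g ε N then (1 : ℝ) / N else 0) ≤ δ * Real.log X := by
  choose X₀ hX₀ using fun r : Fin m => four (3 * (A + 1)) (q r) (p r) (by omega) (hpq r).symm (ε * δ / (2 * (m + 1)))
    (by positivity)
  refine ⟨∑ r, X₀ r + 1, fun X hX f g hf hg => ?_⟩
  choose W hW0 hW1 hW2 using fun r : Fin m => hX₀ r X (by
    have := single_le_sum (f := X₀) (fun _ _ => Nat.zero_le _) (mem_univ r)
    omega) (f r) (g r) (hf r) (hg r)
  have hlog : 0 ≤ Real.log X := Real.log_natCast_nonneg X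
  have key : ∀ N ∈ Icc 1 X, ε * (if ¬ Good k m A p q f g ε N then (1 : ℝ) / N else 0) ≤ ∑ r, 2 * (W r N / (N : ℝ) ^ 2) := by
    intro N hN
    have hN1 := (mem_Icc.1 hN).1
    have hN0 : (0 : ℝ) < N := by exact_mod_cast hN1
    by_cases h : Good k m A p q f g ε N
    · rw [if_neg (fun hh => hh h), mul_zero]
      exact sum_nonneg fun r _ => mul_nonneg zero_le_two (div_nonneg (hW0 r N) (by positivity))
    · rw [if_pos h]
      unfold Good at h
      push Not at h
      obtain ⟨y, u, v, hy, hyp, w, hw, hbig⟩ := h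
      have h1 := many_forms (V := Fin k) (A + 1) N m y u v (fun r => form_mono (hy r)) hyp
        (fun r n => f r (cardFactors (n + p r)) * g r (cardFactors (n + q r)))
        (fun r n => by rw [norm_mul]; exact mul_le_one₀ (hf _ _) (norm_nonneg _) (hg _ _))
        (fun r => mean (f r) N * mean (g r) N)
        (fun r => by
          rw [norm_mul]
          exact mul_le_one₀ (Pool.Agent.Y842.QY.mB_le _ 1 zero_le_one (hf r) N) (norm_nonneg _)
            (Pool.Agent.Y842.QY.mB_le _ 1 zero_le_one (hg r) N))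
        (fun r => W r N) (fun r α => hW1 r N hN1 α) w hw
      have e1 : ((Box (fun _ : Fin k => N)).card : ℝ) = (N : ℝ) ^ k := by
        unfold Box
        rw [Fintype.card_piFinset]
        simp
      rw [e1] at h1
      have h2 : (N : ℝ) * (ε * (N : ℝ) ^ k) ≤ (N : ℝ) ^ k * ∑ r, 2 * W r N :=
        (mul_le_mul_of_nonneg_left hbig.le hN0.le).trans h1
      have hNk : (0 : ℝ) < (N : ℝ) ^ k := by positivity
      have h3 : (N : ℝ) * ε ≤ ∑ r, 2 * W r N := by
        have : (N : ℝ) ^ k * (N * ε) ≤ (N : ℝ) ^ k * ∑ r, 2 * W r N := by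
          refine le_trans (le_of_eq ?_) h2
          ring
        exact le_of_mul_le_mul_left this hNk
      have e2 : ∑ r, 2 * (W r N / (N : ℝ) ^ 2) = (∑ r, 2 * W r N) / (N : ℝ) ^ 2 := by
        rw [sum_div]
        apply sum_congr rfl
        intro r _
        ring
      rw [e2, le_div_iff₀ (by positivity)]
      refine le_trans (le_of_eq ?_) h3
      field_simp
  have h1 : ε * ∑ N ∈ Icc 1 X, (if ¬ Good k m A p q f g ε N then (1 : ℝ) / N else 0) ≤ ε * (δ * Real.log X) := by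
    rw [mul_sum]
    refine (sum_le_sum key).trans ?_
    rw [sum_comm]
    have h2 : ∀ r ∈ (univ : Finset (Fin m)), ∑ N ∈ Icc 1 X, 2 * (W r N / (N : ℝ) ^ 2) ≤ ε * δ / (m + 1) * Real.log X := by
      intro r _
      rw [← mul_sum]
      refine (mul_le_mul_of_nonneg_left (hW2 r) zero_le_two).trans (le_of_eq ?_)
      field_simp
    refine (sum_le_sum h2).trans ?_
    rw [sum_const, card_univ, Fintype.card_fin, nsmul_eq_mul]
    have h3 : (m : ℝ) * (ε * δ / (m + 1)) ≤ ε * δ := by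
      rw [← mul_div_assoc, div_le_iff₀ (by positivity)]
      nlinarith [mul_pos hε hδ]
    calc (m : ℝ) * (ε * δ / (m + 1) * Real.log X) = (m * (ε * δ / (m + 1))) * Real.log X := by ring
      _ ≤ ε * δ * Real.log X := mul_le_mul_of_nonneg_right h3 hlog
      _ = _ := by ring
  exact le_of_mul_le_mul_left h1 hε

theorem exceptional (F : ℕ → ℕ → ℂ) (hF : ∀ i l, ‖F i l‖ ≤ 1) :
    ∃ E : Set ℕ, LogDensityZero E ∧ ∀ (k m A : ℕ) (p q : Fin m → ℕ), (∀ r, p r ≠ q r) → ∀ (i j : Fin m → ℕ) (ε : ℝ),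
      0 < ε → ∃ N₀ : ℕ, ∀ N : ℕ, N₀ ≤ N → N ∉ E → Good k m A p q (fun r => F (i r)) (fun r => F (j r)) ε N := by
  classical
  obtain ⟨E, hE, h1⟩ := Pool.Agent.Y842.EL.LZ_diag'
    (ι := ℕ × ℕ × ℕ × (Σ m : ℕ, (Fin m → ℕ) × (Fin m → ℕ) × (Fin m → ℕ) × (Fin m → ℕ)))
    (fun t => {N : ℕ | (∀ r, t.2.2.2.2.1 r ≠ t.2.2.2.2.2.1 r) ∧ ¬ Good t.1 t.2.2.2.1 t.2.1 t.2.2.2.2.1 t.2.2.2.2.2.1
      (fun r => F (t.2.2.2.2.2.2.1 r)) (fun r => F (t.2.2.2.2.2.2.2 r)) (1 / ((t.2.2.1 : ℝ) + 1)) N}) (by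
    rintro ⟨k, A, l, m, p, q, i, j⟩
    rw [Pool.Agent.Y842.EL.LZ_eps]
    intro ε hε
    by_cases hpq : ∀ r, p r ≠ q r
    swap
    · refine ⟨0, fun X _ => ?_⟩
      have hz : Pool.Agent.Y304.U.sE {N : ℕ | (∀ r, p r ≠ q r) ∧ ¬ Good k m A p q
          (fun r => F (i r)) (fun r => F (j r)) (1 / ((l : ℝ) + 1)) N} X = 0 := by
        unfold Pool.Agent.Y304.U.sE Pool.Agent.Y304.U.ind
        apply sum_eq_zero
        intro n _
        rw [if_neg, zero_div]
        rintro ⟨h, -⟩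
        exact hpq h
      show Pool.Agent.Y304.U.sE {N : ℕ | (∀ r, p r ≠ q r) ∧ ¬ Good k m A p q
          (fun r => F (i r)) (fun r => F (j r)) (1 / ((l : ℝ) + 1)) N} X ≤ _
      rw [hz]
      exact mul_nonneg hε.le (Real.log_natCast_nonneg _)
    obtain ⟨X₀, h2⟩ := uniform k m A p q hpq (1 / ((l : ℝ) + 1)) ε (by positivity) hε
    refine ⟨X₀, fun X hX => ?_⟩
    refine le_trans (le_of_eq ?_) (h2 X hX (fun r => F (i r)) (fun r => F (j r)) (fun r => hF _) (fun r => hF _))
    show Pool.Agent.Y304.U.sE {N : ℕ | (∀ r, p r ≠ q r) ∧ ¬ Good k m A p q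
          (fun r => F (i r)) (fun r => F (j r)) (1 / ((l : ℝ) + 1)) N} X = _
    unfold Pool.Agent.Y304.U.sE Pool.Agent.Y304.U.ind
    apply sum_congr rfl
    intro n _
    by_cases h : Good k m A p q (fun r => F (i r)) (fun r => F (j r)) (1 / ((l : ℝ) + 1)) n
    · rw [if_neg (fun hh => hh.2 h), if_neg (fun hh => hh h), zero_div]
    · rw [if_pos ⟨hpq, h⟩, if_pos h])
  refine ⟨E, hE, fun k m A p q hpq i j ε hε => ?_⟩
  obtain ⟨l, hl⟩ := exists_nat_gt (1 / ε)
  obtain ⟨N₀, h2⟩ := h1 (k, A, l, ⟨m, p, q, i, j⟩)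
  have hlε : 1 / ((l : ℝ) + 1) ≤ ε := by
    rw [div_le_iff₀ (by positivity)]
    rw [div_lt_iff₀ hε] at hl
    nlinarith
  refine ⟨N₀, fun N hN hNE => ?_⟩
  have h3 : Good k m A p q (fun r => F (i r)) (fun r => F (j r)) (1 / ((l : ℝ) + 1)) N := by
    by_contra hcon
    apply hNE
    apply h2 N hN
    exact ⟨hpq, hcon⟩
  intro y u v hy hyp w hw
  exact (h3 y u v hy hyp w hw).trans (mul_le_mul_of_nonneg_right hlε (by positivity))

/-- the proportion of the `n ≤ N` with `Ω(n) ∈ D` -/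
noncomputable def dens (D : Set ℕ) (N : ℕ) : ℝ := (({n | n ∈ Icc 1 N ∧ cardFactors n ∈ D} : Set ℕ).ncard : ℝ) / N

open Classical in
lemma mean_ind (D : Set ℕ) (N : ℕ) : mean (fun l => if l ∈ D then 1 else 0) N = ((dens D N : ℝ) : ℂ) := by
  unfold mean dens
  have e : ({n | n ∈ Icc 1 N ∧ cardFactors n ∈ D} : Set ℕ) =
      (((Icc 1 N).filter (fun n => cardFactors n ∈ D) : Finset ℕ) : Set ℕ) := by
    ext n
    rw [coe_filter]
  rw [e, Set.ncard_coe_finset, ← sum_filter, sum_const, nsmul_eq_mul, mul_one]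
  push_cast
  rfl

lemma ind_sum {k : ℕ} (N : ℕ) (S : Fin k → Finset ℕ) (hS : ∀ i, S i ⊆ Icc 1 N) {M : Type*} [AddCommMonoid M] (φ : (Fin k → ℕ) → M) :
    ∑ x ∈ Fintype.piFinset (fun _ : Fin k => Icc 1 N), (if ∀ i, x i ∈ S i then φ x else 0) = ∑ x ∈ Fintype.piFinset S, φ x := by
  rw [← sum_filter]
  apply sum_congr _ (fun _ _ => rfl)
  ext x
  rw [mem_filter, Fintype.mem_piFinset, Fintype.mem_piFinset]
  exact ⟨fun h => h.2, fun h => ⟨fun i => hS i (h i), h⟩⟩

lemma split_ind {k : ℕ} (S : Fin k → Finset ℕ) (u v : Fin k) (huv : u ≠ v) :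
    Split (fun x : Fin k → ℕ => if ∀ a, x a ∈ S a then (1 : ℂ) else 0) u v := by
  classical
  refine ⟨fun x => if ∀ a, a ≠ u → x a ∈ S a then 1 else 0, fun x => if x u ∈ S u then 1 else 0,
    fun x => by dsimp only; split_ifs <;> simp, fun x => by dsimp only; split_ifs <;> simp,
    fun x t => ?_, fun x t => ?_, fun x => ?_⟩
  · have e : (∀ a, a ≠ u → Function.update x u t a ∈ S a) ↔ ∀ a, a ≠ u → x a ∈ S a := by
      apply forall_congr'
      intro a
      apply imp_congr_right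
      intro ha
      rw [Function.update_of_ne ha]
    simp only [e]
  · simp only [Function.update_of_ne huv]
  · by_cases h1 : x u ∈ S u
    · have e : (∀ a, x a ∈ S a) ↔ ∀ a, a ≠ u → x a ∈ S a := by
        refine ⟨fun h a _ => h a, fun h a => ?_⟩
        by_cases ha : a = u
        · rw [ha]; exact h1
        · exact h a ha
      simp only [e, if_pos h1, mul_one]
    · have e : ¬ ∀ a, x a ∈ S a := fun h => h1 (h u)
      simp only [if_neg e, if_neg h1, mul_zero]

theorem edges (D : ℕ → Set ℕ) :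
    ∃ E : Set ℕ, LogDensityZero E ∧ ∀ (k m : ℕ) (u v : Fin m → Fin k), (∀ r, u r < v r) →
      (∀ r r', u r = u r' → v r = v r' → r = r') → ∀ p q : Fin m → ℕ, (∀ r, p r ≠ q r) →
      ∀ (i j : Fin m → ℕ) (ε : ℝ), 0 < ε → ∃ N₀ : ℕ, ∀ N : ℕ, N₀ ≤ N → N ∉ E →
      ∀ S : Fin k → Finset ℕ, (∀ a, S a ⊆ Icc 1 N) →
      |(({x | (∀ a, x a ∈ S a) ∧ ∀ r, cardFactors (x (u r) + x (v r) + p r) ∈ D (i r) ∧
          cardFactors (x (u r) + x (v r) + q r) ∈ D (j r)} : Set (Fin k → ℕ)).ncard : ℝ) -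
        (∏ r, (dens (D (i r)) N * dens (D (j r)) N)) * ∏ a, ((S a).card : ℝ)| ≤ ε * (N : ℝ) ^ k := by
  classical
  obtain ⟨E, hE, h⟩ := exceptional (fun i l => if l ∈ D i then 1 else 0) (fun i l => by split_ifs <;> simp)
  refine ⟨E, hE, fun k m u v huv hinj p q hpq i j ε hε => ?_⟩
  obtain ⟨N₀, h1⟩ := h k m 1 p q hpq i j ε hε
  refine ⟨N₀, fun N hN hNE S hS => ?_⟩
  have h2 := h1 N hN hNE (fun r x => x (u r) + x (v r)) u v (fun r => ⟨(huv r).ne, 1, 1, fun _ => 0, le_rfl, le_rfl,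
    le_rfl, le_rfl, fun _ => Nat.zero_le _, fun _ _ => rfl, fun _ _ => rfl, fun x => by ring⟩) (by
    intro r r' hr
    by_cases h3 : u r = u r' ∨ u r = v r'
    · right
      intro x t
      have h4 : v r ≠ u r' := by
        rintro hh
        rcases h3 with h3 | h3
        · have := huv r
          rw [h3, hh] at this
          exact lt_irrefl _ this
        · have a1 := huv r
          have a2 := huv r'
          rw [h3, hh] at a1
          exact lt_irrefl _ (a1.trans a2)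
      have h5 : v r ≠ v r' := by
        rintro hh
        rcases h3 with h3 | h3
        · exact hr.ne (hinj r r' h3 hh)
        · have := huv r
          rw [h3, hh] at this
          exact lt_irrefl _ this
      show Function.update x (v r) t (u r') + Function.update x (v r) t (v r') = x (u r') + x (v r')
      rw [Function.update_of_ne h4.symm, Function.update_of_ne h5.symm]
    · left
      push Not at h3
      intro x t
      show Function.update x (u r) t (u r') + Function.update x (u r) t (v r') = x (u r') + x (v r')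
      rw [Function.update_of_ne h3.1.symm, Function.update_of_ne h3.2.symm])
    (fun x => if ∀ a, x a ∈ S a then 1 else 0) (fun r => split_ind S (u r) (v r) (huv r).ne)
  have e1 : ∀ x : Fin k → ℕ, ∏ r, ((if cardFactors (x (u r) + x (v r) + p r) ∈ D (i r) then (1 : ℂ) else 0) *
      (if cardFactors (x (u r) + x (v r) + q r) ∈ D (j r) then 1 else 0)) =
      if ∀ r, cardFactors (x (u r) + x (v r) + p r) ∈ D (i r) ∧ cardFactors (x (u r) + x (v r) + q r) ∈ D (j r)
        then 1 else 0 := by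
    intro x
    have e2 : ∀ r, ((if cardFactors (x (u r) + x (v r) + p r) ∈ D (i r) then (1 : ℂ) else 0) *
      (if cardFactors (x (u r) + x (v r) + q r) ∈ D (j r) then 1 else 0)) =
      if cardFactors (x (u r) + x (v r) + p r) ∈ D (i r) ∧ cardFactors (x (u r) + x (v r) + q r) ∈ D (j r)
        then 1 else 0 := by
      intro r
      by_cases a1 : cardFactors (x (u r) + x (v r) + p r) ∈ D (i r) <;>
        by_cases a2 : cardFactors (x (u r) + x (v r) + q r) ∈ D (j r) <;> simp [a1, a2]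
    rw [prod_congr rfl fun r _ => e2 r, prod_boole]
    simp only [mem_univ, true_implies]
  simp only [mean_ind, e1] at h2
  simp only [ite_mul, one_mul, zero_mul] at h2
  rw [ind_sum N S hS (fun x => (if ∀ r, cardFactors (x (u r) + x (v r) + p r) ∈ D (i r) ∧
      cardFactors (x (u r) + x (v r) + q r) ∈ D (j r) then (1 : ℂ) else 0)), ind_sum N S hS (fun _ => (1 : ℂ)),
    ← sum_filter, sum_const, sum_const, nsmul_eq_mul, nsmul_eq_mul, mul_one, mul_one, Fintype.card_piFinset] at h2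
  have e3 : ({x | (∀ a, x a ∈ S a) ∧ ∀ r, cardFactors (x (u r) + x (v r) + p r) ∈ D (i r) ∧
          cardFactors (x (u r) + x (v r) + q r) ∈ D (j r)} : Set (Fin k → ℕ)) =
      (((Fintype.piFinset S).filter (fun x => ∀ r, cardFactors (x (u r) + x (v r) + p r) ∈ D (i r) ∧
          cardFactors (x (u r) + x (v r) + q r) ∈ D (j r)) : Finset (Fin k → ℕ)) : Set (Fin k → ℕ)) := by
    ext x
    rw [coe_filter, Set.mem_ofPred_eq, Set.mem_ofPred_eq, Fintype.mem_piFinset]
  rw [e3, Set.ncard_coe_finset]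
  have e4 : ((((Fintype.piFinset S).filter (fun x => ∀ r, cardFactors (x (u r) + x (v r) + p r) ∈ D (i r) ∧
          cardFactors (x (u r) + x (v r) + q r) ∈ D (j r))).card : ℕ) : ℂ) -
      (∏ r, (((dens (D (i r)) N : ℝ) : ℂ) * ((dens (D (j r)) N : ℝ) : ℂ))) * ((∏ a, (S a).card : ℕ) : ℂ) =
      (((((Fintype.piFinset S).filter (fun x => ∀ r, cardFactors (x (u r) + x (v r) + p r) ∈ D (i r) ∧
          cardFactors (x (u r) + x (v r) + q r) ∈ D (j r))).card : ℕ) : ℝ) -
        (∏ r, (dens (D (i r)) N * dens (D (j r)) N)) * ∏ a, ((S a).card : ℝ) : ℝ) := by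
    push_cast
    ring
  rw [e4, Complex.norm_real, Real.norm_eq_abs] at h2
  exact h2

open Classical in
theorem result :
    -- 1. Uniformity. For all `k, m, A`, shifts `p r ≠ q r` and `ε, δ > 0`, for all large `X`, and all `f r, g r` bounded
    -- by one (they may depend on `X`): the scales `N ≤ X` which are not good have logarithmic mass `≤ δ log X`. Good
    -- scales are good for all forms `y r` and all weights `w` (see `Good`).
    (∀ (k m A : ℕ) (p q : Fin m → ℕ), (∀ r, p r ≠ q r) → ∀ ε δ : ℝ, 0 < ε → 0 < δ →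
      ∃ X₀ : ℕ, ∀ X : ℕ, X₀ ≤ X → ∀ f g : Fin m → ℕ → ℂ, (∀ r l, ‖f r l‖ ≤ 1) → (∀ r l, ‖g r l‖ ≤ 1) →
        ∑ N ∈ Icc 1 X, (if ¬ Good k m A p q f g ε N then (1 : ℝ) / N else 0) ≤ δ * Real.log X) ∧
    -- 2. One exceptional set of logarithmic density zero for a sequence `F` of functions bounded by one: outside it all
    -- large scales are good, for all `k, m, A`, all shifts, all choices of functions from the sequence and all `ε`.
    (∀ F : ℕ → ℕ → ℂ, (∀ i l, ‖F i l‖ ≤ 1) →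
      ∃ E : Set ℕ, LogDensityZero E ∧ ∀ (k m A : ℕ) (p q : Fin m → ℕ), (∀ r, p r ≠ q r) →
        ∀ (i j : Fin m → ℕ) (ε : ℝ), 0 < ε → ∃ N₀ : ℕ, ∀ N : ℕ, N₀ ≤ N → N ∉ E →
          Good k m A p q (fun r => F (i r)) (fun r => F (j r)) ε N) ∧
    -- 3. Sets. For a sequence `D` of sets of values of `Ω` and the pairwise sums of the elements of arbitrary sets
    -- `S_1, ..., S_k ⊆ [N]`, over the edges `{u r, v r}` of an arbitrary graph with `k` vertices and `m` edges (for
    -- example the complete graph), with the two values at every sum (`p = 0, q = 1`: consecutive values).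
    (∀ D : ℕ → Set ℕ, ∃ E : Set ℕ, LogDensityZero E ∧ ∀ (k m : ℕ) (u v : Fin m → Fin k), (∀ r, u r < v r) →
      (∀ r r', u r = u r' → v r = v r' → r = r') → ∀ p q : Fin m → ℕ, (∀ r, p r ≠ q r) →
      ∀ (i j : Fin m → ℕ) (ε : ℝ), 0 < ε → ∃ N₀ : ℕ, ∀ N : ℕ, N₀ ≤ N → N ∉ E →
      ∀ S : Fin k → Finset ℕ, (∀ a, S a ⊆ Icc 1 N) →
      |(({x | (∀ a, x a ∈ S a) ∧ ∀ r, cardFactors (x (u r) + x (v r) + p r) ∈ D (i r) ∧
          cardFactors (x (u r) + x (v r) + q r) ∈ D (j r)} : Set (Fin k → ℕ)).ncard : ℝ) -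
        (∏ r, (dens (D (i r)) N * dens (D (j r)) N)) * ∏ a, ((S a).card : ℝ)| ≤ ε * (N : ℝ) ^ k) :=
  ⟨uniform, exceptional, edges⟩

end Pool.Agent.Results.MP_e0aac0_nt.ConsecutiveValuesAtSums
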