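import Pool.Agent.H19.OM.ZeroTwo
import Pool.Agent.H31.OM.TK
import Pool.Agent.H29.OM.PL1
import Pool.Agent.H29.OM.PL2
import Pool.Agent.H6.OM.QLO
import Pool.Agent.H6.OM.PLO
import Pool.Agent.H50.OM.Aff
import Pool.Agent.H23.OM.Mom
import Pool.Agent.H42.OM.Avg
import Pool.Agent.H61.OM.SWC
import Pool.Agent.H39.OM.Smc
import Pool.Agent.H82.OM.Two
import Pool.Agent.H11.OM.UPT
import Pool.Agent.H71.OM.ERR3
import Pool.Agent.H5.OM.Shi
import Pool.Agent.H95.OM.Gra
import Pool.Agent.H53.OM.SWA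
import Pool.Agent.H10.OM.AR1
import Pool.Agent.H10.OM.AR2
import Pool.Agent.H10.OM.RES
import Pool.Agent.H59.OM.SW
import Pool.Agent.H85.OM.PQ
import Pool.Agent.H85.OM.CB
import Pool.Agent.H97.OM.Pad
import Pool.Agent.H23.OM.Crt
import Pool.Agent.H23.OM.Sml
import Pool.Agent.H23.OM.Ca
import Pool.Agent.H82.OM.Blk
import Pool.Agent.H5.OM.Hyb
import Pool.Agent.H5.OM.C2
import Pool.Agent.H42.OM.Upj
import Pool.Agent.H29.OM.CI
import Pool.Agent.H29.OM.K1
import Pool.Agent.H76.OM.C1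
import Pool.Agent.H50.OM.C3
import Pool.Agent.H52.OM.CG
import Pool.Agent.H61.OM.K2
import Pool.Agent.H23.OM.K3
import Pool.Agent.H29.OM.K4
import Pool.Agent.H15.OM.K5
import Pool.Agent.H22.OM.K6
import Pool.Agent.H71.OM.ERR2

set_option autoImplicit false

/-!
# At how many consecutive integers is Omega independent?  A 0-2 law with threshold `log log y` for the truncated function

Q1 says that for every FIXED `k` the sum over `l` of Q1 tends to `0`.  We replace `Ω` by `omegaUpTo y`, the number of the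
prime factors `p ≤ y` with multiplicity, and let `k` grow.  In the range `N ≥ y ^ ((log log y)^3)` the sum of Q1, which
always lies between `0` and `2`, tends to `0` if AND ONLY IF `k / log log y → 0`, and it tends to `2` if AND ONLY IF
`k / log log y → ∞` (for `k ≍ log log y` it stays away from `0` and from `2`).  The first equivalence holds in the range
`N ≥ y ^ (A (log log y)^2)` already.

Proof.  Upper bound: the primes are replaced one by one by their independent copies; the primes `p > M` are compared with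
Poisson variables directly, the others by means of the smoothing by these Poisson variables of mean `≍ log log y` and a
second moment with respect to the product of `k` Poisson laws (the swap at `p` costs `O(k p^(-3/2) / log log y)`); for
`k ≍ log log y` the primes `p ≤ p₀` are compared by the Hellinger affinity of two shifts of the product of Poisson laws.
Lower bounds: the characteristic function of the alternating sum of the coordinates at `1 / (2 m)`, `m ≍ log log y`, where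
the prime 2 contributes a factor `cos 1 + o(1)` in place of `1 + o(1)`; and, for the value `2`, the powers of 2 in the
classes of the positions modulo `2 ^ a`.  Passage from a period to `n ≤ N`: truncated inclusion and exclusion and an
exponential moment.
-/

namespace Pool.Agent.Results.MP_e0aac0_nt.LogLogThreshold

open Finset Filter Topology

/-- the number of the prime factors `p ≤ y` of `n`, with multiplicity -/
def omegaUpTo (y n : ℕ) : ℕ := ∑ p ∈ n.primeFactors with p ≤ y, n.factorization p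

/-- the proportion of the `n ≤ N` with `omegaUpTo y (n + i) = l i` for all `i < k` -/
noncomputable def joint (y : ℕ) {k : ℕ} (N : ℕ) (l : Fin k → ℕ) : ℝ :=
  (((Icc 1 N).filter (fun n => ∀ i : Fin k, omegaUpTo y (n + i) = l i)).card : ℝ) / N

/-- the proportion of the `n ≤ N` with `omegaUpTo y n = j` -/
noncomputable def density (y N j : ℕ) : ℝ := (((Icc 1 N).filter (fun n => omegaUpTo y n = j)).card : ℝ) / N

/-- the sum of Q1 with `omegaUpTo y` in place of `Ω`: `l` runs through the vectors of `k` integers `≥ 0` -/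
noncomputable def sumQ1 (y k N : ℕ) : ℝ := ∑' l : Fin k → ℕ, |joint y N l - ∏ i, density y N (l i)|

open Pool.Agent.H19.OM

/-- the modules for the upper bounds and for the value `0` -/
lemma parts : S_UPJ ∧ S_CG ∧ S_RES ∧ S_ERR2 ∧ S_ERR3 := by
  have hCRT : S_CRT := Pool.Agent.H23.OM.t_CRT
  have hSWA : S_SWA := Pool.Agent.H53.OM.t_SWA Pool.Agent.H5.OM.t_SHI Pool.Agent.H95.OM.t_GRA
  have hSW : S_SW := Pool.Agent.H59.OM.t_SW hSWA Pool.Agent.H10.OM.t_AR1 Pool.Agent.H10.OM.t_AR2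
  have hSML : S_SML := Pool.Agent.H23.OM.t_SML hSW hCRT
  have hBLK : S_BLK := Pool.Agent.H82.OM.t_BLK Pool.Agent.H85.OM.t_PQ Pool.Agent.H97.OM.t_PAD hCRT
  have hHYB : S_HYB := Pool.Agent.H5.OM.t_HYB hBLK hSML hCRT
  have hUPJ : S_UPJ := Pool.Agent.H42.OM.t_UPJ hHYB
  have hCA : S_CA := Pool.Agent.H23.OM.t_CA
  have hCI : S_CI := Pool.Agent.H29.OM.t_CI
  have hC1 : S_C1 := Pool.Agent.H76.OM.t_C1
  have hC2 : S_C2 := Pool.Agent.H5.OM.t_C2
  have hCB : S_CB := Pool.Agent.H85.OM.t_CB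
  have hC3 : S_C3 := Pool.Agent.H50.OM.t_C3
  have hCG : S_CG := Pool.Agent.H52.OM.t_CG hCA hCI hC1 hC2 hCB hC3
  have hK1 : S_K1 := Pool.Agent.H29.OM.t_K1
  have hK2 : S_K2 := Pool.Agent.H61.OM.k2
  have hK3 : S_K3 := Pool.Agent.H23.OM.t_K3
  have hK4 : S_K4 := Pool.Agent.H29.OM.t_K4 hK1 hK2
  have hK5 : S_K5 := Pool.Agent.H15.OM.t_K5
  have hK6 : S_K6 := Pool.Agent.H22.OM.t_K6
  have hERR : S_ERR2 := Pool.Agent.H71.OM.t_ERR2 hK3 hK4 hK5 hK6
  have hERR3 : S_ERR3 := Pool.Agent.H71.OM.E3.t_ERR3 hK3 hK4 hK5 hK6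
  exact ⟨hUPJ, hCG, Pool.Agent.H10.OM.t_RES, hERR, hERR3⟩

/-- the modules for the value `2` -/
lemma parts2 : S_UPT ∧ S_LOW2 := by
  have hCRT : S_CRT := Pool.Agent.H23.OM.t_CRT
  have hSWA : S_SWA := Pool.Agent.H53.OM.t_SWA Pool.Agent.H5.OM.t_SHI Pool.Agent.H95.OM.t_GRA
  have hBLK : S_BLK := Pool.Agent.H82.OM.t_BLK Pool.Agent.H85.OM.t_PQ Pool.Agent.H97.OM.t_PAD hCRT
  have hAFF : S_AFF := Pool.Agent.H50.OM.t_AFF
  have hMOM : S_MOM := Pool.Agent.H23.OM.t_MOM
  have hAVG : S_AVG := Pool.Agent.H42.OM.t_AVG hAFF hMOM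
  have hSWC : S_SWC := Pool.Agent.H61.OM.t_SWC hSWA Pool.Agent.H10.OM.t_AR1 Pool.Agent.H10.OM.t_AR2
  have hSMC : S_SMC := Pool.Agent.H39.OM.t_SMC hSWC hCRT
  have hTWO : S_TWO := Pool.Agent.H82.OM.t_TWO hAVG hSMC hBLK hCRT
  have hUPT : S_UPT := Pool.Agent.H11.OM.t_UPT hTWO
  have hTK : S_TK := Pool.Agent.H31.OM.t_TK
  have hPL1 : S_PL1 := Pool.Agent.H29.OM.t_PL1
  have hPL2 : S_PL2 := Pool.Agent.H29.OM.t_PL2
  exact ⟨hUPT, t_LOW2 (Pool.Agent.H6.OM.t_QLO hTK) (Pool.Agent.H6.OM.t_PLO hPL1 hPL2)⟩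

/-- **Theorem (0-2 law).** There is a constant `A` such that for all sequences `y n → ∞`, `k n ≥ 1` and `N n`:
if `N n ≥ (y n) ^ (A (log log (y n))^2)`, then the sum of Q1 for `omegaUpTo (y n)`, `k n` and `N n` tends to `0` if and
only if `k n / log log (y n)` tends to `0`; if `N n ≥ (y n) ^ ((log log (y n))^3)`, then it tends to `2`, its largest
possible value, if and only if `k n / log log (y n)` tends to infinity. -/
theorem result : ∃ A : ℕ, ∀ y k N : ℕ → ℕ, Tendsto y atTop atTop → (∀ᶠ n in atTop, 1 ≤ k n) →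
    ((∀ᶠ n in atTop, (y n : ℝ) ^ (A * Real.log (Real.log (y n)) ^ 2) ≤ N n) →
      (Tendsto (fun n => sumQ1 (y n) (k n) (N n)) atTop (𝓝 0) ↔
        Tendsto (fun n => (k n : ℝ) / Real.log (Real.log (y n))) atTop (𝓝 0))) ∧
    ((∀ᶠ n in atTop, (y n : ℝ) ^ (Real.log (Real.log (y n)) ^ 3) ≤ N n) →
      (Tendsto (fun n => sumQ1 (y n) (k n) (N n)) atTop (𝓝 2) ↔
        Tendsto (fun n => (k n : ℝ) / Real.log (Real.log (y n))) atTop atTop)) := by
  obtain ⟨hU, hG, hR, hE, hE3⟩ := parts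
  obtain ⟨hT, hL⟩ := parts2
  obtain ⟨A₀, hE⟩ := errAt hE
  exact ⟨A₀, fun y k N hy hk => ⟨fun h => iff2 hE hU hG hR y k N hy (hk.and h),
    fun h => (zero_two hE3 hU hT hG hR hL y k N hy (hk.and h)).2⟩⟩

end Pool.Agent.Results.MP_e0aac0_nt.LogLogThreshold
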