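import Pool.Agent.H19.OM.Seq
import Pool.Agent.H31.OM.TK
import Pool.Agent.H29.OM.PL1
import Pool.Agent.H29.OM.PL2
import Pool.Agent.H6.OM.QLO
import Pool.Agent.H6.OM.PLO

set_option autoImplicit false

/-!
# Omega at many consecutive integers: the sum of Q1 tends to its largest value

Q1 asks whether for every FIXED number `k` of consecutive integers the sum over `l` of Q1 tends to `0`.  How fast may `k`
grow with `N`?  If `k / log log N` tends to infinity, the joint law of `Ω(n), …, Ω(n + k - 1)` and the product law are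
asymptotically mutually singular: the sum of Q1 tends to `2`, the largest possible value.  The same is true for the number
of the prime factors `p ≤ y`, with `log log y` in place of `log log N`.

Proof.  Let `D = 2 ^ a`.  For consecutive integers the sum of `Ω` over the positions `i ≡ - n` modulo `D` exceeds the sum
over the positions `i ≡ 1 - n` by at least `a m - 16 m - (small)`, `m` being the number of positions in a class: the
powers of 2 contribute `a m`, the at most 16 large prime factors of each integer contribute `16 m`, and the others have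
small first or second moments.  For independent coordinates all the `D` differences are `O((m log log N) ^ (1/2))`.
-/

namespace Pool.Agent.Results.MP_e0aac0_nt.ManyConsecutiveIntegers

open Finset

/-- the number of the prime factors `p ≤ y` of `n`, with multiplicity -/
def omegaUpTo (y n : ℕ) : ℕ := ∑ p ∈ n.primeFactors with p ≤ y, n.factorization p

/-- the number of the prime factors of `n`, with multiplicity -/
def omega (n : ℕ) : ℕ := ArithmeticFunction.cardFactors n

/-- the proportion of the `n ≤ N` with `f (n + i) = l i` for all `i < k` -/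
noncomputable def joint (f : ℕ → ℕ) {k : ℕ} (N : ℕ) (l : Fin k → ℕ) : ℝ :=
  (((Icc 1 N).filter (fun n => ∀ i : Fin k, f (n + i) = l i)).card : ℝ) / N

/-- the proportion of the `n ≤ N` with `f n = j` -/
noncomputable def density (f : ℕ → ℕ) (N j : ℕ) : ℝ := (((Icc 1 N).filter (fun n => f n = j)).card : ℝ) / N

/-- the sum of Q1 for `k` and `N`: `l` runs through the vectors of `k` positive integers -/
noncomputable def sumQ1 (k N : ℕ) : ℝ :=
  ∑' l : Fin k → ℕ, |joint omega N (fun i => l i + 1) - ∏ i, density omega N (l i + 1)|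

/-- the same sum for `omegaUpTo y`, over all the vectors of `k` integers `≥ 0` -/
noncomputable def sumUpTo (y k N : ℕ) : ℝ :=
  ∑' l : Fin k → ℕ, |joint (omegaUpTo y) N l - ∏ i, density (omegaUpTo y) N (l i)|

open Pool.Agent.H19.OM

/-- the modules -/
lemma parts : S_LOW := by
  have hTK : S_TK := Pool.Agent.H31.OM.t_TK
  have hPL1 : S_PL1 := Pool.Agent.H29.OM.t_PL1
  have hPL2 : S_PL2 := Pool.Agent.H29.OM.t_PL2
  exact t_LOW (Pool.Agent.H6.OM.t_QLO hTK) (Pool.Agent.H6.OM.t_PLO hPL1 hPL2)

theorem result :
    (∀ ε : ℝ, 0 < ε → ∃ C : ℝ, 0 < C ∧ ∀ N k : ℕ, C ≤ N → C * Real.log (Real.log N) ≤ k → C * k ≤ N →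
      2 - ε ≤ sumQ1 k N ∧ sumQ1 k N ≤ 2) ∧
    (∀ ε : ℝ, 0 < ε → ∃ C : ℝ, 0 < C ∧ ∀ y N k : ℕ, C ≤ y → y ≤ 2 * N → C * Real.log (Real.log y) ≤ k → k ≤ N →
      2 - ε ≤ sumUpTo y k N ∧ sumUpTo y k N ≤ 2) := by
  have hL : S_LOW := parts
  constructor
  · intro ε hε
    obtain ⟨C, hC, h⟩ := low_full hL ε hε
    refine ⟨C, hC, fun N k h1 h2 h3 => ⟨h N k h1 h2 h3, ?_⟩⟩
    have hN : 1 ≤ N := by
      have : (0 : ℝ) < N := lt_of_lt_of_le hC h1
      exact_mod_cast this
    exact le_trans (discpos_le _ _ _) (disc_le_two _ _ _ hN)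
  · intro ε hε
    obtain ⟨C, hC, h⟩ := low_disc hL ε hε
    refine ⟨C, hC, fun y N k h1 h2 h3 h4 => ⟨h y N k h1 h2 h3 h4, ?_⟩⟩
    have hy : 1 ≤ y := by
      have : (0 : ℝ) < y := lt_of_lt_of_le hC h1
      exact_mod_cast this
    exact disc_le_two _ _ _ (by omega)

end Pool.Agent.Results.MP_e0aac0_nt.ManyConsecutiveIntegers
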