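import Pool.Agent.H68.OP.Iter

set_option autoImplicit false

/-!
# The values of `Ω` at all pairwise sums of the elements of arbitrary dense sets

Q1 of MP_e0aac0_nt asks for the joint independence of `Ω(n), Ω(n + 1), ..., Ω(n + k - 1)`. Here `n + i` is replaced by
the sums `x_i + x_j`, `i < j`, of elements of arbitrary sets of integers, or, more generally, by sums over the edges of
a hypergraph; all the `Ω(x_i + x_j)` are considered simultaneously.
-/

namespace Pool.Agent.Results.MP_e0aac0_nt.PairwiseSums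

open Finset Pool.Agent.H68.OP
open ArithmeticFunction (cardFactors)

/-- the weighted law for a graph on `Fin k` -/
lemma graph_private {k m N : ℕ} (u v : Fin m → Fin k) (huv : ∀ r, u r < v r)
    (hinj : ∀ r r', u r = u r' → v r = v r' → r = r') :
    Private N (fun _ : Fin k => N) (fun _ n => n) (Fin.elim0 : Fin 0 → Finset (Fin k)) (fun r => {u r, v r}) := by
  intro r
  refine ⟨u r, v r, (huv r).ne, ⟨rfl, fun _ => rfl⟩, by simp, by simp, fun q => q.elim0, ?_⟩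
  intro r' hr' hh
  simp only [mem_insert, mem_singleton] at hh
  obtain ⟨h1, h2⟩ := hh
  have h3 := huv r
  have h4 := huv r'
  rcases h1 with h1 | h1
  · rcases h2 with h2 | h2
    · rw [h1, h2] at h3; exact absurd h3 (lt_irrefl _)
    · exact absurd (hinj r r' h1 h2) hr'.ne
  · rcases h2 with h2 | h2
    · rw [h1, h2] at h3
      exact absurd (h3.trans h4) (lt_irrefl _)
    · rw [h1, h2] at h3; exact absurd h3 (lt_irrefl _)

lemma graph_form {k : ℕ} (x : Fin k → ℕ) (a b : Fin k) (hab : a < b) :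
    form (fun _ n => n) {a, b} 0 x = x a + x b := by
  unfold form
  rw [sum_pair hab.ne, add_zero]

lemma spread_all (N : ℕ) : Spread N 1 1 1 N (fun n => n) := by
  have h := Pool.Agent.Results.MP_e0aac0_nt.AlmostAllShifts.result.2.2.1 N 1 le_rfl
  rw [one_mul] at h
  exact h

/-- the indicator of the sets -/
lemma ind_sum {k : ℕ} (N : ℕ) (S : Fin k → Finset ℕ) (hS : ∀ i, S i ⊆ Icc 1 N) {M : Type*} [AddCommMonoid M] (φ : (Fin k → ℕ) → M) :
    ∑ x ∈ Box (fun _ : Fin k => N), (if ∀ i, x i ∈ S i then φ x else 0) = ∑ x ∈ Fintype.piFinset S, φ x := by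
  rw [← sum_filter]
  apply sum_congr _ (fun _ _ => rfl)
  ext x
  rw [mem_filter, mem_Box, Fintype.mem_piFinset]
  exact ⟨fun h => h.2, fun h => ⟨fun i => hS i (h i), h⟩⟩

/-- the labels -/
def ind {k : ℕ} (S : Fin k → Finset ℕ) : Fin k → ℕ → ℕ := fun i n => if n ∈ S i then 1 else 0

lemma ind_iff {k : ℕ} (S : Fin k → Finset ℕ) (x : Fin k → ℕ) : (∀ i, lab (ind S) x i = 1) ↔ ∀ i, x i ∈ S i := by
  unfold lab ind
  apply forall_congr'
  intro i
  by_cases h : x i ∈ S i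
  · simp [h]
  · simp [h]

lemma ind_le {k : ℕ} (S : Fin k → Finset ℕ) (L : ℝ) (hL : 1 ≤ L) (κ : ℝ) (hκ : 0 ≤ κ) (i : Fin k) (n : ℕ) :
    ((ind S i n : ℕ) : ℝ) ≤ L ^ κ := by
  have h1 : (1 : ℝ) ≤ L ^ κ := Real.one_le_rpow hL hκ
  have h2 : ((ind S i n : ℕ) : ℝ) ≤ 1 := by
    unfold ind
    split_ifs <;> simp
  linarith

theorem graph_loc (k m A : ℕ) : ∃ C : ℝ, 0 < C ∧ ∃ N₀ : ℕ, ∀ N : ℕ, N₀ ≤ N →
    ∀ S : Fin k → Finset ℕ, (∀ i, S i ⊆ Icc 1 N) → ∀ u v : Fin m → Fin k, (∀ r, u r < v r) →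
    (∀ r r', u r = u r' → v r = v r' → r = r') → ∀ ℓ : Fin m → ℕ,
    |(((Fintype.piFinset S).filter (fun x => ∀ r, cardFactors (x (u r) + x (v r)) = ℓ r)).card : ℝ) -
        (∏ r, dens N (ℓ r)) * ∏ i, ((S i).card : ℝ)| ≤
      C * (Real.log (ll N) / √(ll N) ^ (m + 1)) * ∏ i, ((S i).card : ℝ) + C / ll N ^ A * (N : ℝ) ^ k := by
  obtain ⟨κ, hκ, C, hC, N1, h⟩ := loc (V := Fin k) 0 1 1 A 1 m
  obtain ⟨N3, hN3, hr⟩ := Pool.Agent.TH445.OI.rr_facts
  refine ⟨C, hC, max N1 N3, fun N hN S hS u v huv hinj ℓ => ?_⟩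
  obtain ⟨-, -, -, hL1⟩ := hr N (by omega)
  have h1 := h N (by omega) (fun _ => N) (fun _ n => n) (fun _ => spread_all N) (ind S)
    (fun i _ n => ind_le S _ hL1 κ hκ.le i n) Fin.elim0 Fin.elim0 (fun r => r.elim0) (fun r => {u r, v r}) (fun _ => 0)
    (fun _ => Nat.zero_le _) (graph_private u v huv hinj)
    (fun c _ => if ∀ i, c i = 1 then 1 else 0) (fun c _ => by split_ifs <;> norm_num) (fun _ _ => ℓ)
  simp only [ind_iff] at h1
  have hom : ∀ x : Fin k → ℕ, om (fun _ n => n) (fun r => {u r, v r}) (fun _ => 0) x = fun r => cardFactors (x (u r) + x (v r)) := by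
    intro x
    funext r
    unfold om
    rw [graph_form x _ _ (huv r)]
  simp only [hom, ite_mul, one_mul, zero_mul] at h1
  rw [ind_sum N S hS (fun x => (if (fun r => cardFactors (x (u r) + x (v r))) = ℓ then (1 : ℝ) else 0) - ∏ r, dens N (ℓ r)),
    ind_sum N S hS (fun _ => (1 : ℝ)), sum_sub_distrib, sum_const, sum_const, nsmul_eq_mul, nsmul_eq_mul, mul_one,
    Fintype.card_piFinset, ← sum_filter] at h1
  have e1 : ∑ x ∈ (Fintype.piFinset S).filter (fun x => (fun r => cardFactors (x (u r) + x (v r))) = ℓ), (1 : ℝ) =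
      (((Fintype.piFinset S).filter (fun x => ∀ r, cardFactors (x (u r) + x (v r)) = ℓ r)).card : ℝ) := by
    rw [sum_const, nsmul_eq_mul, mul_one]
    congr 2
    ext x
    rw [mem_filter, mem_filter, funext_iff]
  have e2 : ((Box (fun _ : Fin k => N)).card : ℝ) = (N : ℝ) ^ k := by
    unfold Box
    rw [Fintype.card_piFinset]
    simp
  rw [e1, e2] at h1
  push_cast at h1
  rw [mul_comm (∏ i, ((S i).card : ℝ)) (∏ r, dens N (ℓ r))] at h1
  exact h1

/-- the proportion of the `(r_1, ..., r_m)` in `[N]^m` with `(Ω(r_1), ..., Ω(r_m)) ∈ D` -/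
noncomputable def prob (N m : ℕ) (D : Set (Fin m → ℕ)) : ℝ :=
  (({r | (∀ i, r i ∈ Icc 1 N) ∧ (fun i => cardFactors (r i)) ∈ D} : Set (Fin m → ℕ)).ncard : ℝ) / (N : ℝ) ^ m

open Classical in
lemma mean_ind (N m : ℕ) (D : Set (Fin m → ℕ)) : mean N m (fun l => if l ∈ D then 1 else 0) = ((prob N m D : ℝ) : ℂ) := by
  unfold mean prob
  have e1 : ({r | (∀ i, r i ∈ Icc 1 N) ∧ (fun i => cardFactors (r i)) ∈ D} : Set (Fin m → ℕ)) =
      (((Fintype.piFinset (fun _ : Fin m => Icc 1 N)).filter (fun r => (fun i => cardFactors (r i)) ∈ D) : Finset (Fin m → ℕ)) : Set (Fin m → ℕ)) := by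
    ext r
    rw [coe_filter, Set.mem_ofPred_eq, Set.mem_ofPred_eq, Fintype.mem_piFinset]
  rw [e1, Set.ncard_coe_finset, ← sum_filter, sum_const, nsmul_eq_mul, mul_one]
  push_cast
  rfl

theorem graph_tv (k m : ℕ) : ∃ C : ℝ, 0 < C ∧ ∃ N₀ : ℕ, ∀ N : ℕ, N₀ ≤ N →
    ∀ S : Fin k → Finset ℕ, (∀ i, S i ⊆ Icc 1 N) → ∀ u v : Fin m → Fin k, (∀ r, u r < v r) →
    (∀ r r', u r = u r' → v r = v r' → r = r') → ∀ D : Set (Fin m → ℕ),
    |(({x | (∀ i, x i ∈ S i) ∧ (fun r => cardFactors (x (u r) + x (v r))) ∈ D} : Set (Fin k → ℕ)).ncard : ℝ) -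
        prob N m D * ∏ i, ((S i).card : ℝ)| ≤ C * rate N * (N : ℝ) ^ k := by
  classical
  obtain ⟨κ, hκ, C, hC, N1, h⟩ := tv (V := Fin k) 0 1 1 1 m
  obtain ⟨N3, hN3, hr⟩ := Pool.Agent.TH445.OI.rr_facts
  refine ⟨C, hC, max N1 N3, fun N hN S hS u v huv hinj D => ?_⟩
  obtain ⟨-, -, -, hL1⟩ := hr N (by omega)
  have h1 := h N (by omega) (fun _ => N) (fun _ n => n) (fun _ => spread_all N) (ind S)
    (fun i _ n => ind_le S _ hL1 κ hκ.le i n) Fin.elim0 Fin.elim0 (fun r => r.elim0) (fun r => {u r, v r}) (fun _ => 0)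
    (fun _ => Nat.zero_le _) (graph_private u v huv hinj)
    (fun c _ l => if ∀ i, c i = 1 then (if l ∈ D then 1 else 0) else 0) (fun c _ l => by split_ifs <;> simp)
  have hmean : ∀ x : Fin k → ℕ, mean N m (fun l => if ∀ i, x i ∈ S i then (if l ∈ D then (1 : ℂ) else 0) else 0) =
      if ∀ i, x i ∈ S i then ((prob N m D : ℝ) : ℂ) else 0 := by
    intro x
    by_cases hc : ∀ i, x i ∈ S i
    · simp only [if_pos hc]
      exact mean_ind N m D
    · simp only [if_neg hc]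
      unfold mean
      simp
  simp only [ind_iff] at h1
  simp only [hmean] at h1
  have hom : ∀ x : Fin k → ℕ, om (fun _ n => n) (fun r => {u r, v r}) (fun _ => 0) x = fun r => cardFactors (x (u r) + x (v r)) := by
    intro x
    funext r
    unfold om
    rw [graph_form x _ _ (huv r)]
  simp only [hom] at h1
  rw [ind_sum N S hS (fun x => (if (fun r => cardFactors (x (u r) + x (v r))) ∈ D then (1 : ℂ) else 0)),
    ind_sum N S hS (fun _ => ((prob N m D : ℝ) : ℂ)), sum_const, nsmul_eq_mul, Fintype.card_piFinset, ← sum_filter,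
    sum_const, nsmul_eq_mul, mul_one] at h1
  have e3 : ({x | (∀ i, x i ∈ S i) ∧ (fun r => cardFactors (x (u r) + x (v r))) ∈ D} : Set (Fin k → ℕ)) =
      (((Fintype.piFinset S).filter (fun x => (fun r => cardFactors (x (u r) + x (v r))) ∈ D) : Finset (Fin k → ℕ)) : Set (Fin k → ℕ)) := by
    ext x
    rw [coe_filter, Set.mem_ofPred_eq, Set.mem_ofPred_eq, Fintype.mem_piFinset]
  have e2 : ((Box (fun _ : Fin k => N)).card : ℝ) = (N : ℝ) ^ k := by
    unfold Box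
    rw [Fintype.card_piFinset]
    simp
  rw [e2] at h1
  rw [e3, Set.ncard_coe_finset]
  have e4 : ((((Fintype.piFinset S).filter (fun x => (fun r => cardFactors (x (u r) + x (v r))) ∈ D)).card : ℕ) : ℂ) -
      ((∏ i, (S i).card : ℕ) : ℂ) * ((prob N m D : ℝ) : ℂ) =
      (((((Fintype.piFinset S).filter (fun x => (fun r => cardFactors (x (u r) + x (v r))) ∈ D)).card : ℕ) : ℝ) -
        prob N m D * ∏ i, ((S i).card : ℝ) : ℝ) := by
    push_cast
    ring
  rw [e4, Complex.norm_real, Real.norm_eq_abs] at h1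
  exact h1

theorem result :
    -- 1. The local law. The variables `x_v`, `v` in the finite set `V`, are indices `1 ≤ x_v ≤ X_v` of members
    -- `s_v(x_v)` of spread families (for example all the integers of `[N]`, polynomial values, the primes), with labels
    -- `f_v(x_v)`; the labels of the full variables (those with `s_v(x) = x`, `X_v = N`) have at most `(log N) ^ κ`
    -- values, the others are arbitrary. Every set `e r` of variables contains two variables, one of them full, which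
    -- are not both contained in an `E q` or in an `e r'`, `r' > r`. Then for every weight `w` in `[0, 1]` and all
    -- prescribed values `G`, both depending on the labels and on the values of `Ω` at the sums
    -- `T₀ q + ∑_{v ∈ E q} s_v(x_v)`: the weighted number of the `x` with `Ω(T r + ∑_{v ∈ e r} s_v(x_v)) = G_r` for all
    -- `r < m` is the weighted sum of the `∏ π_{G_r}(N)`, with an error `C log log log N / (log log N) ^ ((m + 1) / 2)`
    -- times the sum of the weights plus `C |Box| / (log log N) ^ A`.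
    (∀ (V : Type) [Fintype V] [DecidableEq V] (R P B A : ℕ) (C₀ : ℝ) (m : ℕ), ∃ κ : ℝ, 0 < κ ∧ ∃ C : ℝ, 0 < C ∧
      ∃ N₀ : ℕ, ∀ N : ℕ, N₀ ≤ N →
      ∀ (X : V → ℕ) (s : V → ℕ → ℕ), (∀ v, Spread N B P C₀ (X v) (s v)) → ∀ f : V → ℕ → ℕ,
      (∀ v, Full N X s v → ∀ n, (f v n : ℝ) ≤ Real.log N ^ κ) →
      ∀ (E : Fin R → Finset V) (T₀ : Fin R → ℕ), (∀ r, T₀ r ≤ B * N) →
      ∀ (e : Fin m → Finset V) (T : Fin m → ℕ), (∀ r, T r ≤ B * N) → Private N X s E e →
      ∀ w : (V → ℕ) → (Fin R → ℕ) → ℝ, (∀ c u, 0 ≤ w c u ∧ w c u ≤ 1) → ∀ G : (V → ℕ) → (Fin R → ℕ) → Fin m → ℕ,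
      |∑ x ∈ Box X, w (lab f x) (om s E T₀ x) *
          ((if om s e T x = G (lab f x) (om s E T₀ x) then (1 : ℝ) else 0) -
            ∏ r, dens N (G (lab f x) (om s E T₀ x) r))| ≤
        C * (Real.log (ll N) / √(ll N) ^ (m + 1)) * ∑ x ∈ Box X, w (lab f x) (om s E T₀ x) +
          C / ll N ^ A * (Box X).card) ∧
    -- 2. Total variation. In the same situation: the `Ω(T r + ∑_{v ∈ e r} s_v(x_v))`, `r < m`, are jointly independent,
    -- independent of the labels and of the values of `Ω` at the sums over the `E q`, and distributed as the values of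
    -- `Ω` on `[N]`, up to `C log log log N / √(log log N)`.
    (∀ (V : Type) [Fintype V] [DecidableEq V] (R P B : ℕ) (C₀ : ℝ) (m : ℕ), ∃ κ : ℝ, 0 < κ ∧ ∃ C : ℝ, 0 < C ∧
      ∃ N₀ : ℕ, ∀ N : ℕ, N₀ ≤ N →
      ∀ (X : V → ℕ) (s : V → ℕ → ℕ), (∀ v, Spread N B P C₀ (X v) (s v)) → ∀ f : V → ℕ → ℕ,
      (∀ v, Full N X s v → ∀ n, (f v n : ℝ) ≤ Real.log N ^ κ) →
      ∀ (E : Fin R → Finset V) (T₀ : Fin R → ℕ), (∀ r, T₀ r ≤ B * N) →
      ∀ (e : Fin m → Finset V) (T : Fin m → ℕ), (∀ r, T r ≤ B * N) → Private N X s E e →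
      ∀ a : (V → ℕ) → (Fin R → ℕ) → (Fin m → ℕ) → ℂ, (∀ c u v, ‖a c u v‖ ≤ 1) →
      ‖∑ x ∈ Box X, a (lab f x) (om s E T₀ x) (om s e T x) -
          ∑ x ∈ Box X, mean N m (a (lab f x) (om s E T₀ x))‖ ≤ C * rate N * (Box X).card) ∧
    -- 3. Exact values at pairwise sums. For every graph with `k` vertices and `m` edges `{u r, v r}` (for example the
    -- complete graph), all sets `S_1, ..., S_k ⊆ [N]` and all `ℓ`: the number of the `x` in `S_1 × ... × S_k` with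
    -- `Ω(x_(u r) + x_(v r)) = ℓ_r` for all the edges.
    (∀ k m A : ℕ, ∃ C : ℝ, 0 < C ∧ ∃ N₀ : ℕ, ∀ N : ℕ, N₀ ≤ N →
      ∀ S : Fin k → Finset ℕ, (∀ i, S i ⊆ Icc 1 N) → ∀ u v : Fin m → Fin k, (∀ r, u r < v r) →
      (∀ r r', u r = u r' → v r = v r' → r = r') → ∀ ℓ : Fin m → ℕ,
      |(((Fintype.piFinset S).filter (fun x => ∀ r, cardFactors (x (u r) + x (v r)) = ℓ r)).card : ℝ) -
          (∏ r, dens N (ℓ r)) * ∏ i, ((S i).card : ℝ)| ≤
        C * (Real.log (ll N) / √(ll N) ^ (m + 1)) * ∏ i, ((S i).card : ℝ) + C / ll N ^ A * (N : ℝ) ^ k) ∧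
    -- 4. Arbitrary events `D` for the vector of the values of `Ω` at the pairwise sums.
    (∀ k m : ℕ, ∃ C : ℝ, 0 < C ∧ ∃ N₀ : ℕ, ∀ N : ℕ, N₀ ≤ N →
      ∀ S : Fin k → Finset ℕ, (∀ i, S i ⊆ Icc 1 N) → ∀ u v : Fin m → Fin k, (∀ r, u r < v r) →
      (∀ r r', u r = u r' → v r = v r' → r = r') → ∀ D : Set (Fin m → ℕ),
      |(({x | (∀ i, x i ∈ S i) ∧ (fun r => cardFactors (x (u r) + x (v r))) ∈ D} : Set (Fin k → ℕ)).ncard : ℝ) -
          prob N m D * ∏ i, ((S i).card : ℝ)| ≤ C * rate N * (N : ℝ) ^ k) ∧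
    -- 5. Families to which 1 and 2 apply: all integers of `[B N]`,
    (∀ N B : ℕ, 1 ≤ B → Spread N B 1 1 (B * N) (fun m => m)) ∧
    -- the values `F(1), ..., F(x)` of a polynomial of degree `d` with `x ^ d` of the order of `N`,
    (∀ F : Polynomial ℤ, 1 ≤ F.natDegree → 0 < F.leadingCoeff → (∀ m : ℕ, 1 ≤ m → 0 ≤ F.eval (m : ℤ)) →
      ∀ A : ℕ, ∃ B P : ℕ, ∃ C : ℝ, ∀ N x : ℕ, N ≤ A * x ^ F.natDegree → x ^ F.natDegree ≤ A * N →
        Spread N B P C x (fun m => (F.eval (m : ℤ)).toNat)) ∧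
    -- and the primes in `(√N, N]`.
    (∃ C : ℝ, ∃ N₀ : ℕ, ∀ N : ℕ, N₀ ≤ N → ∃ (x : ℕ) (s : ℕ → ℕ),
      Set.BijOn s (Set.Icc 1 x) {p | p.Prime ∧ p ≤ N ∧ N < p ^ 2} ∧ Spread N 1 2 C x s) :=
  ⟨fun _ _ _ R P B A C₀ m => loc R P B A C₀ m, fun _ _ _ R P B C₀ m => tv R P B C₀ m, graph_loc, graph_tv,
    Pool.Agent.Results.MP_e0aac0_nt.AlmostAllShifts.result.2.2⟩

end Pool.Agent.Results.MP_e0aac0_nt.PairwiseSums
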